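import Pool.Agent.H17.Cone.Main
import Pool.Agent.H17.Cone.BAS
import Pool.Agent.H17.Cone.CPT
import Pool.Agent.H17.Cone.BDD
import Pool.Agent.H33.Cone.PCK
import Pool.Agent.H33.Cone.MAX
import Pool.Agent.H57.Cone.ORD
import Pool.Agent.H57.Cone.SPB
import Pool.Agent.H58.Cone.PAR
import Pool.Agent.H69.Cone.TRI
import Pool.Agent.H69.Cone.REG
import Pool.Agent.H74.Cone.FRM
import Pool.Agent.H74.Cone.COV
import Pool.Agent.H4.Cone.VOL
import Pool.Agent.H4.Cone.DEN
import Pool.Agent.H1.Cone.SIM
import Pool.Agent.H17.Cone.INQ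
import Pool.Agent.H17.Cone.TRG

/-!
# The smallest lattice packing density of cones over convex disks

For every convex disk `K`, the cone over `K` (with any apex off the plane of `K`) has lattice packing
density at least `18/49`, and more than `18/49` unless `K` is a triangle.
-/

set_option autoImplicit false

namespace Pool.H30.LMI.Old

open Pool.Agent.H17.Cone

theorem result :
    (∀ K : Set E2, IsDisk K → ∀ (f : E2 →ᵃ[ℝ] E3), Function.Injective f →
      ∀ v : E3, v ∉ Set.range f →
        18 / 49 ≤ deltaL (cone f v K) ∧ deltaL (cone f v K) ≤ deltaT (cone f v K)) ∧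
    (∀ K : Set E2, IsDisk K → (¬ ∃ a b c : E2, K = convexHull ℝ {a, b, c}) →
      ∀ (f : E2 →ᵃ[ℝ] E3), Function.Injective f → ∀ v : E3, v ∉ Set.range f →
        18 / 49 < deltaL (cone f v K)) :=
  main_thm (par_thm inq_thm') pck_thm (ord_thm (frm_thm max_thm)) (reg_thm tri_thm) trg_thm' bas_thm
    spb_thm cpt_thm (vol_thm sim_thm) cov_thm den_thm bdd_thm llt_thm

end Pool.H30.LMI.Old
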