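import Pool.Agent.H30.LMI.Defs
import Pool.Agent.H30.LMI.Old

/-!
# Lattice packings of cones: the theorem in Euclidean spaces without coordinates
-/

set_option autoImplicit false

open MeasureTheory Filter

namespace Pool.H30.LMI

section
variable {E E' : Type} [NormedAddCommGroup E] [InnerProductSpace ℝ E] [NormedAddCommGroup E']
  [InnerProductSpace ℝ E'] (e : E ≃ₗᵢ[ℝ] E')

theorem tr_map (u : E) (C : Set E) : tr (e u) (e '' C) = e '' tr u C := by
  unfold tr
  rw [Set.image_image, Set.image_image]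
  simp

theorem pack_map (Λ C : Set E) : IsPacking (e '' Λ) (e '' C) ↔ IsPacking Λ C := by
  have hi : ∀ S : Set E, interior (e '' S) = e '' interior S := fun S =>
    (e.toHomeomorph.image_interior S).symm
  constructor
  · intro h u hu u' hu' hne
    have h1 := h (e u) ⟨u, hu, rfl⟩ (e u') ⟨u', hu', rfl⟩ (fun h2 => hne (e.injective h2))
    rw [tr_map, tr_map, hi, hi, ← Set.image_inter e.injective, Set.image_eq_empty] at h1
    exact h1
  · rintro h _ ⟨u, hu, rfl⟩ _ ⟨u', hu', rfl⟩ hne
    rw [tr_map, tr_map, hi, hi, ← Set.image_inter e.injective, Set.image_eq_empty]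
    exact h u hu u' hu' (fun h2 => hne (by rw [h2]))

theorem lat_map (g : Fin 3 → E) : lat (fun i => e (g i)) = e '' lat g := by
  ext x
  constructor
  · rintro ⟨n, rfl⟩
    exact ⟨_, ⟨n, rfl⟩, by simp⟩
  · rintro ⟨_, ⟨n, rfl⟩, rfl⟩
    exact ⟨n, by simp⟩

theorem union_map (Λ C : Set E) : ⋃ u ∈ e '' Λ, tr u (e '' C) = e '' ⋃ u ∈ Λ, tr u C := by
  rw [Set.image_iUnion₂, Set.biUnion_image]
  simp only [tr_map]

theorem ind_map (g : Fin 3 → E) :
    LinearIndependent ℝ (fun i => e (g i)) ↔ LinearIndependent ℝ g :=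
  e.toLinearEquiv.toLinearMap.linearIndependent_iff e.toLinearEquiv.ker

theorem ex_set (X : Set E') : ∃ Y : Set E, X = e '' Y :=
  ⟨e ⁻¹' X, (Set.image_preimage_eq _ e.surjective).symm⟩

variable [FiniteDimensional ℝ E] [MeasurableSpace E] [BorelSpace E] [FiniteDimensional ℝ E']
  [MeasurableSpace E'] [BorelSpace E']

theorem dens_map (U : Set E) : upperDensity (e '' U) = upperDensity U := by
  have hv : ∀ S : Set E, volume (e '' S) = volume S := fun S => by
    have h1 : e '' S = e.symm ⁻¹' S := by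
      ext x
      constructor
      · rintro ⟨y, hy, rfl⟩; simpa using hy
      · intro hx; exact ⟨e.symm x, hx, by simp⟩
    rw [h1]
    exact e.symm.measurePreserving.measure_preimage_emb
      e.symm.toHomeomorph.measurableEmbedding S
  unfold upperDensity
  congr 1
  funext R
  have hb : Metric.ball (0 : E') R = e '' Metric.ball (0 : E) R := by
    rw [e.image_ball, map_zero]
  rw [hb, ← Set.image_inter e.injective, hv, hv]

theorem deltaT_map (C : Set E) : deltaT (e '' C) = deltaT C := by
  unfold deltaT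
  congr 1
  ext d
  constructor
  · rintro ⟨X, h, rfl⟩
    obtain ⟨Y, rfl⟩ := ex_set e X
    exact ⟨Y, (pack_map e Y C).1 h, by rw [union_map, dens_map]⟩
  · rintro ⟨X, h, rfl⟩
    exact ⟨e '' X, (pack_map e X C).2 h, by rw [union_map, dens_map]⟩

theorem deltaL_map (C : Set E) : deltaL (e '' C) = deltaL C := by
  unfold deltaL
  congr 1
  ext d
  constructor
  · rintro ⟨g, hg, h, rfl⟩
    obtain ⟨g', rfl⟩ : ∃ g' : Fin 3 → E, g = fun i => e (g' i) :=
      ⟨fun i => e.symm (g i), by funext i; simp⟩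
    rw [lat_map] at h ⊢
    exact ⟨g', (ind_map e g').1 hg, (pack_map e _ C).1 h, by rw [union_map, dens_map]⟩
  · rintro ⟨g, hg, h, rfl⟩
    refine ⟨fun i => e (g i), (ind_map e g).2 hg, ?_, ?_⟩
    · rw [lat_map]
      exact (pack_map e _ C).2 h
    · rw [lat_map, union_map, dens_map]

end

open Pool.Agent.H17.Cone in
theorem old_pack (Λ C : Set E3) : Pool.Agent.H17.Cone.IsPacking Λ C ↔ IsPacking Λ C := by
  unfold Pool.Agent.H17.Cone.IsPacking IsPacking
  simp only [Set.disjoint_iff_inter_eq_empty]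
  rfl

open Pool.Agent.H17.Cone in
theorem old_deltaT (C : Set E3) : Pool.Agent.H17.Cone.deltaT C = deltaT C := by
  unfold Pool.Agent.H17.Cone.deltaT deltaT
  simp only [old_pack]
  rfl

open Pool.Agent.H17.Cone in
theorem old_deltaL (C : Set E3) : Pool.Agent.H17.Cone.deltaL C = deltaL C := by
  unfold Pool.Agent.H17.Cone.deltaL deltaL
  congr 1
  ext d
  constructor
  · rintro ⟨g, h, rfl⟩
    exact ⟨g, g.linearIndependent, (old_pack _ C).1 h, rfl⟩
  · rintro ⟨g, hg, h, rfl⟩
    have hc : Fintype.card (Fin 3) = Module.finrank ℝ E3 := by simp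
    have hb : ∀ i, basisOfLinearIndependentOfCardEqFinrank hg hc i = g i := fun i => by simp
    have hl : Pool.Agent.H17.Cone.lat (basisOfLinearIndependentOfCardEqFinrank hg hc) = lat g := by
      unfold Pool.Agent.H17.Cone.lat lat
      simp only [hb]
    refine ⟨basisOfLinearIndependentOfCardEqFinrank hg hc, ?_, ?_⟩
    · rw [hl]
      exact (old_pack _ C).2 h
    · rw [hl]
      rfl

theorem main {P E : Type} [NormedAddCommGroup P] [InnerProductSpace ℝ P] [NormedAddCommGroup E]
    [InnerProductSpace ℝ E] [FiniteDimensional ℝ E] [MeasurableSpace E] [BorelSpace E]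
    (hP : Module.finrank ℝ P = 2) (hE : Module.finrank ℝ E = 3) (K : Set P) (hK : IsDisk K)
    (L : P →ₗ[ℝ] E) (hL : Function.Injective L) (b v : E) (hv : ∀ x, L x + b ≠ v) :
    18 / 49 ≤ deltaL (cone L b v K) ∧ deltaL (cone L b v K) ≤ deltaT (cone L b v K) ∧
      ((¬ ∃ x y z : P, K = convexHull ℝ {x, y, z}) → 18 / 49 < deltaL (cone L b v K)) := by
  have : FiniteDimensional ℝ P := Module.finite_of_finrank_eq_succ hP
  let p : P ≃ₗᵢ[ℝ] EuclideanSpace ℝ (Fin 2) :=
    ((stdOrthonormalBasis ℝ P).reindex (finCongr hP)).repr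
  let e : E ≃ₗᵢ[ℝ] EuclideanSpace ℝ (Fin 3) :=
    ((stdOrthonormalBasis ℝ E).reindex (finCongr hE)).repr
  obtain ⟨h1, h2⟩ := Old.result
  have hK' : Pool.Agent.H17.Cone.IsDisk (p '' K) :=
    ⟨hK.1.linear_image p.toLinearEquiv.toLinearMap, hK.2.1.image p.continuous, by
      have h3 : p '' interior K = interior (p '' K) := p.toHomeomorph.image_interior K
      rw [← h3]
      exact hK.2.2.image p⟩
  let f : EuclideanSpace ℝ (Fin 2) →ᵃ[ℝ] EuclideanSpace ℝ (Fin 3) :=
    { toFun := fun x => e (L (p.symm x) + b)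
      linear := e.toLinearEquiv.toLinearMap ∘ₗ L ∘ₗ p.symm.toLinearEquiv.toLinearMap
      map_vadd' := fun x w => by
        simp only [vadd_eq_add, map_add, LinearMap.comp_apply]
        show e (L (p.symm w)) + e (L (p.symm x)) + e b = e (L (p.symm w)) + (e (L (p.symm x)) + e b)
        rw [add_assoc] }
  have hf : ∀ x, f x = e (L (p.symm x) + b) := fun x => rfl
  have hfi : Function.Injective f := by
    intro x y hxy
    rw [hf, hf] at hxy
    have h3 := e.injective hxy
    exact p.symm.injective (hL (add_right_cancel h3))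
  have hvr : e v ∉ Set.range f := by
    rintro ⟨x, hx⟩
    rw [hf] at hx
    exact hv _ (e.injective hx)
  have hc : Pool.Agent.H17.Cone.cone f (e v) (p '' K) = e '' cone L b v K := by
    unfold Pool.Agent.H17.Cone.cone cone
    have h3 : e '' convexHull ℝ ((fun x => L x + b) '' K ∪ {v}) =
        convexHull ℝ (e '' ((fun x => L x + b) '' K ∪ {v})) :=
      e.toLinearEquiv.toLinearMap.image_convexHull _
    rw [h3, Set.image_union, Set.image_singleton, Set.image_image, Set.image_image]
    simp only [hf, p.symm_apply_apply]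
  have h3 := h1 (p '' K) hK' f hfi (e v) hvr
  rw [hc, old_deltaL, old_deltaT, deltaL_map, deltaT_map] at h3
  refine ⟨h3.1, h3.2, fun hn => ?_⟩
  have h4 := h2 (p '' K) hK' (fun ⟨x, y, z, hxyz⟩ => hn ⟨p.symm x, p.symm y, p.symm z, by
    apply Set.image_injective.2 p.injective
    have h5 : p '' convexHull ℝ {p.symm x, p.symm y, p.symm z} =
        convexHull ℝ (p '' {p.symm x, p.symm y, p.symm z}) :=
      p.toLinearEquiv.toLinearMap.image_convexHull _
    rw [h5, hxyz]
    simp [Set.image_insert_eq]⟩) f hfi (e v) hvr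
  rwa [hc, old_deltaL, deltaL_map] at h4

end Pool.H30.LMI
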