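import Mathlib

/-!
# Lattice packings of cones over convex disks: definitions

`P` is the Euclidean plane, `E` is Euclidean space.
-/

set_option autoImplicit false

namespace Pool.H30.LMI

open MeasureTheory Filter

variable {P E : Type} [NormedAddCommGroup P] [InnerProductSpace ℝ P] [NormedAddCommGroup E]
  [InnerProductSpace ℝ E]

/-- A convex disk: a compact convex subset of the plane with nonempty interior. -/
def IsDisk (K : Set P) : Prop := Convex ℝ K ∧ IsCompact K ∧ (interior K).Nonempty

/-- The cone with apex `v` over the convex disk `K`, placed in a plane of space by the affine map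
`x ↦ L x + b`: the convex hull of the image of `K` and `v`. -/
def cone (L : P →ₗ[ℝ] E) (b v : E) (K : Set P) : Set E :=
  convexHull ℝ ((fun x => L x + b) '' K ∪ {v})

/-- The translate `u + C`. -/
def tr (u : E) (C : Set E) : Set E := (fun x => u + x) '' C

/-- The translates `u + C`, `u ∈ Λ`, have pairwise disjoint interiors. -/
def IsPacking (Λ C : Set E) : Prop :=
  ∀ u ∈ Λ, ∀ u' ∈ Λ, u ≠ u' → interior (tr u C) ∩ interior (tr u' C) = ∅

/-- The integer combinations of `g`. -/
def lat (g : Fin 3 → E) : Set E := {x | ∃ n : Fin 3 → ℤ, x = ∑ i, (n i : ℝ) • g i}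

variable [FiniteDimensional ℝ E] [MeasurableSpace E] [BorelSpace E]

/-- The upper density of a subset of space. -/
noncomputable def upperDensity (U : Set E) : ℝ :=
  limsup (fun R : ℝ => (volume (U ∩ Metric.ball (0 : E) R)).toReal /
    (volume (Metric.ball (0 : E) R)).toReal) atTop

/-- The lattice packing density of `C`: the supremum of the upper densities of the packings by the
translates of `C` by the vectors of a lattice. -/
noncomputable def deltaL (C : Set E) : ℝ :=
  sSup {d | ∃ g : Fin 3 → E, LinearIndependent ℝ g ∧ IsPacking (lat g) C ∧
    d = upperDensity (⋃ u ∈ lat g, tr u C)}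

/-- The translative packing density of `C`: the supremum of the upper densities of the packings by
translates of `C`. -/
noncomputable def deltaT (C : Set E) : ℝ :=
  sSup {d | ∃ X : Set E, IsPacking X C ∧ d = upperDensity (⋃ u ∈ X, tr u C)}

end Pool.H30.LMI
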